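import Pool.Agent.Lib.SixB.S3CoreThm

/-!
# Critical bond percolation on the square lattice: the crossing probabilities converge

Every unit face of `ℤ × ℤ` contains one of its two diagonals, each with probability `1 / 2`. The
vertices with even coordinate sum with these diagonals are critical bond percolation on a square
lattice (turned by 45 degrees), those with odd coordinate sum the dual percolation.

`P` is a simple polygon made of unit squares, `g` its boundary contour, counterclockwise, of length
`L`, and `t₁ < t₂ < t₃ < t₄ < t₁ + L` are four points of the boundary, given by the arc length, none of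
them a corner. `Cr P g n c i j k l` is the probability that a path of parity `c` inside of the polygon
`n P` joins the boundary arcs `i .. j` and `k .. l` of `n P`. If `i n / n → t₁`, `j n / n → t₂`,
`k n / n → t₃`, `l n / n → t₄`, this probability converges as `n → ∞`, and the limit depends only on
`P`, `g` and `t₁, t₂, t₃, t₄`.
-/

set_option autoImplicit false

namespace Pool.Agent.Results.MP_6bd702_pr.CrossingProbabilities

open Filter Topology Pool.Agent.Perc Pool.Agent.Perc6 Pool.Agent.SixB

theorem result : ∀ (P : Finset (ℤ × ℤ)) (L : ℕ) (g : ℤ → ℤ × ℤ), MPoly P → Cont P L g →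
    ∀ t₁ t₂ t₃ t₄ : ℝ, t₁ < t₂ → t₂ < t₃ → t₃ < t₄ → t₄ < t₁ + L →
      Fl g t₁ → Fl g t₂ → Fl g t₃ → Fl g t₄ →
        ∃ p : ℝ, ∀ c : ℤ, c = 0 ∨ c = 1 → ∀ i j k l : ℕ → ℤ,
          Tendsto (fun n => (i n : ℝ) / n) atTop (𝓝 t₁) →
          Tendsto (fun n => (j n : ℝ) / n) atTop (𝓝 t₂) →
          Tendsto (fun n => (k n : ℝ) / n) atTop (𝓝 t₃) →
          Tendsto (fun n => (l n : ℝ) / n) atTop (𝓝 t₄) →
          Tendsto (fun n => Cr P g n c (i n) (j n) (k n) (l n)) atTop (𝓝 p) :=
  fun P L g hP hg t₁ t₂ t₃ t₄ h₁ h₂ h₃ h₄ f₁ f₂ f₃ f₄ =>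
    caOut P L g hP hg t₁ t₂ t₃ t₄ h₁ h₂ h₃ h₄ f₁ f₂ f₃ f₄

end Pool.Agent.Results.MP_6bd702_pr.CrossingProbabilities
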