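import Pool.Agent.Lib.SixB.Final
import Pool.Agent.Lib.SixB.S3CoreThm
import Pool.Agent.Lib.SixB.S8ClaimCA

/-!
# Critical bond percolation: the scaling limit of the outer perimeter of the largest cluster

For critical bond percolation in the box `{0, …, n}²` let `∂ₙ` be the outer perimeter of a cluster of
largest Euclidean diameter (ties broken by any rule), traced as a closed lattice curve and divided by
`n`. The laws of `∂ₙ` converge as `n → ∞`, in the metric of curves up to reparametrisation, to one
probability law `μ`, which does not depend on the rule. `μ`-almost surely the trace has Hausdorff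
dimension `7 / 4`, the curve is not self-avoiding, and its outer boundary (the boundary of the
unbounded component of the complement of the trace) has Hausdorff dimension `4 / 3`.
-/

set_option autoImplicit false

namespace Pool.Agent.Results.MP_6bd702_pr.ScalingLimit

open Pool.Agent.Perc Pool.Agent.PercD Pool.Agent.PercS5 Filter Topology MeasureTheory

theorem result : ∃ μ : ProbabilityMeasure Curve,
    (∀ sel : ℕ → Finset Edg → ℤ × ℤ, (∀ n, ∀ T ⊆ boxE n, sel n T ∈ Box n ∧
      ∀ v ∈ Box n, Metric.diam (clS T v) ≤ Metric.diam (clS T (sel n T))) →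
      Tendsto (fun n => lawP n (sel n)) atTop (𝓝 μ)) ∧
    ∀ᵐ c : Curve ∂(μ : Measure Curve), dimH (c.trace : Set ℂ) = 7 / 4 ∧ ¬ c.SelfAvoiding ∧
      dimH (outB (c.trace : Set ℂ)) = 4 / 3 :=
  Pool.Agent.SixB.full_of_claim1 (Pool.Agent.SixB.Tru.claim1_of_ca Pool.Agent.SixB.caOut)

end Pool.Agent.Results.MP_6bd702_pr.ScalingLimit
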