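import Pool.Agent.Lib.MP_6bd702_ann.AnnTwo

/-!
# Critical bond percolation on the square lattice: two arms across an annulus, order `(r/R)^(1/4)`

Every unit face of `ℤ × ℤ` contains one of its two diagonals, each with probability `1 / 2`. The
vertices with even coordinate sum with these diagonals are critical bond percolation on a square
lattice (turned by 45 degrees), those with odd coordinate sum the dual percolation. For all
`0 ≤ r ≤ R` the annulus between the rectangles `[-r, r + 1] × [-r, r]` and `[-R, R + 1] × [-R, R]` is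
crossed by an open path and by a dual open path with a probability between two constant multiples
of `((r + 1) / (R + 1)) ^ (1 / 4)`.
-/

set_option autoImplicit false

namespace Pool.Agent.Results.MP_6bd702_pr.TwoArm

open Pool.Agent.Perc

theorem result : ∃ c C : ℝ, 0 < c ∧ 0 < C ∧ ∀ r R : ℕ, r ≤ R →
    c * (((r : ℝ) + 1) / (R + 1)) ^ (1 / 4 : ℝ) ≤ annP r R ∧
      annP r R ≤ C * (((r : ℝ) + 1) / (R + 1)) ^ (1 / 4 : ℝ) := by
  obtain ⟨c, hc, h⟩ := AnnT.annP_ge
  obtain ⟨C, hC, h'⟩ := AnnT.annP_le
  exact ⟨c, C, hc, hC, fun r R hrR => ⟨h r R hrR, h' r R hrR⟩⟩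

end Pool.Agent.Results.MP_6bd702_pr.TwoArm
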