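import Pool.Agent.Lib.MP_6bd702_z.WeakMain
import Pool.Agent.Lib.MP_6bd702_z.Sharp

/-!
# Critical bond percolation: the outer perimeter of the largest cluster has order `n ^ (7 / 4)`

For critical bond percolation in the box `{0, …, n}²` let `C` be a cluster of largest Euclidean
diameter, chosen by any rule, and `#∂C` the number of edges of its outer perimeter, counted with
multiplicity (as traversed by the closed lattice path around it) or without. Then for every `ε > 0`
there are `0 < c < C'` such that for all large `n`, `c n ^ (7 / 4) ≤ #∂C ≤ C' n ^ (7 / 4)` with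
probability at least `1 - ε`. In particular `#∂C` lies in `(n ^ (7 / 4 - ε), n ^ (7 / 4 + ε))` with
probability tending to one.
-/

set_option autoImplicit false

namespace Pool.Agent.Results.MP_6bd702_pr.WeakForm

open Pool.Agent.Perc Filter Topology

theorem result : ∀ sel : ℕ → Finset Edg → ℤ × ℤ,
    (∀ n, ∀ T ⊆ boxE n, sel n T ∈ Box n ∧
      ∀ v ∈ Box n, Metric.diam (clS T v) ≤ Metric.diam (clS T (sel n T))) →
    (∀ ε : ℝ, 0 < ε → ∃ c C : ℝ, 0 < c ∧ 0 < C ∧ ∀ᶠ n : ℕ in atTop,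
      1 - ε ≤ prB n {T | c * (n : ℝ) ^ (7 / 4 : ℝ) ≤ (perimE T (sel n T) : ℝ) ∧
        (perim T (sel n T) : ℝ) ≤ C * (n : ℝ) ^ (7 / 4 : ℝ)}) ∧
    (∀ ε : ℝ, 0 < ε → Tendsto (fun n : ℕ =>
      prB n {T | (n : ℝ) ^ (7 / 4 - ε) < (perimE T (sel n T) : ℝ) ∧
        (perim T (sel n T) : ℝ) < (n : ℝ) ^ (7 / 4 + ε)}) atTop (𝓝 1)) :=
  fun sel hsel => ⟨fun ε hε => by
    obtain ⟨c, C, hc, hC, h⟩ := PercD.sharp_order ε hε
    exact ⟨c, C, hc, hC, h sel hsel⟩, fun ε hε => targetW2_holds ε hε sel hsel⟩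

end Pool.Agent.Results.MP_6bd702_pr.WeakForm
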